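import Pool.Agent.MP_63050e_lc.D9
import Pool.Agent.MP_63050e_lc.E1
import Pool.Agent.MP_63050e_lc.E2
import Pool.Agent.MP_63050e_lc.E4
import Pool.Agent.MP_63050e_lc.E5

/-! It is consistent with ZFC that some chain of length `ω₂` in `(ω^ω, <*)` has vanishing second
derived limit: there are a model `(M, E)` of ZFC and, in this model, an `ω₂`-chain `F` with
`lim² A^F = 0`. -/

namespace Pool.Agent.Results.MP_63050e_lc.OmegaTwoChain

open Pool.Agent.SetModel Pool.Agent.MP63050e Pool.Agent.BVM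

theorem result : ∃ (M : Type 1) (E : M → M → Prop), IsModelZFC E ∧
    ∃ w k Z add zero F : M, IsOmega E w ∧ IsOmega2 E k ∧ IsIntegers E w Z add zero ∧
      IsChain E w k F ∧ LimTwoZero E w k F Z add zero := by
  obtain ⟨κ, _, _, hne, hκ⟩ := exists_omega2
  obtain ⟨B, _, em, h1, h2, h3, h4⟩ := exists_completion (PP κ)
  have hem : DenseEmb em := ⟨h1, h2, h3, h4⟩
  have hccc : CCC B := CCC_of hem
  obtain ⟨p⟩ := nonempty_PP κ
  obtain ⟨h, -⟩ := Ult.exists_of_ne_bot (h1 p)
  refine ⟨Mdl h, BVM.E h, mod_zfc h, Mdl.mk h (omN B), Mdl.mk h (vNset B κ), Mdl.mk h (ZN B),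
    Mdl.mk h (addN B), Mdl.mk h (zN 0), Mdl.mk h (chainN em), isOmega h, hκ B hccc h,
    Ints.isIntegers h, isChain hem h, limTwo_of hem ?_ h⟩
  intro h c hc hcc
  exact world_of em h c (Ints.isIntegers h).1 (isChain hem h) hc hcc

end Pool.Agent.Results.MP_63050e_lc.OmegaTwoChain
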